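import Pool.Agent.Work.MP_dc1a88_an.Cuts

/-!
# `d*` of a real ETF Gram matrix is not determined by `(N, r)`

There are two real ETFs of `26` vectors in `ℝ^13` such that `d*` is infinite for the Gram matrix
of the first (it lies in the cut polytope) and finite for the Gram matrix of the second.
-/

namespace Pool.Agent.Results.MP_dc1a88_an.DegreeNotDetermined

open Pool.Agent.Work.MP_dc1a88_an

theorem result : ∃ v w : Fin 26 → Fin 13 → ℝ, IsRealETF v ∧ IsRealETF w ∧
    dStar (gram v) = ⊤ ∧ dStar (gram w) < ⊤ := by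
  obtain ⟨v, hv, hgv⟩ := exists_etf rows1 G1_symm G1_diag G1_off G1_sq
  obtain ⟨w, hw, hgw⟩ := exists_etf rows2 G2_symm G2_diag G2_off G2_sq
  refine ⟨v, w, hv, hw, ?_, ?_⟩
  · rw [hgv]; exact dStar_eq_top Xr1_mem
  · rw [hgw]; exact dStar_lt_top (by norm_num) Xr2_not_mem

end Pool.Agent.Results.MP_dc1a88_an.DegreeNotDetermined
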